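import Pool.Agent.D0H91.MG.Asy

/-!
# Prime tuples for almost all dilates of arbitrary sequences, alone and together with a genuine tuple

Let `f₁, …, f_r` be strictly increasing sequences of non-negative integers with `f_j(n) ≤ n (log n) ^ C` for large
`n` (the elements of `r` arbitrary sets of density at least `(log N) ^ (-C)`: linear forms, the primes, …), let
`k₁, …, k_r > 0` be real numbers and `a` an arbitrary bounded sequence of weights. For almost every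
`(α₁, …, α_r)` with positive coordinates, for every `K` and all large `N`,

`|∑_{n ≤ N, all ⌊α_j f_j(n) ^ k_j⌋ prime} a n - ∑_{n ≤ N} a n / ∏_j log (α_j f_j(n) ^ k_j)| ≤ N / (log N) ^ K`.

Consequently, for almost every `α` and all integers `h₁, …, h_s` at once, `n + h₁, …, n + h_s` satisfy the formula
of Hardy and Littlewood with the constant `S` if and only if the `s + r` numbers `n + h_i`, `⌊α_j f_j(n) ^ k_j⌋`
satisfy it with the constant `S / ∏ k_j`; for `s = 1` both are true with `S = 1`.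

Proof: the engine `D0H91.MG` (twisted sums of `Λ` by Vinogradov-Korobov, moments of any order of Dirichlet
polynomials with arbitrary coefficients, Plancherel, Borel-Cantelli) for one dilation, then Abel summation and
induction on `r` by Fubini's theorem, the indicators already treated being part of the arbitrary weights.
-/

set_option autoImplicit false

namespace Pool.Agent.Results.MP_e87c7d_nt.MetricTuples

open Filter Topology MeasureTheory Finset
open Pool.Agent.D0H91.MG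

theorem pos_meas' (r : ℕ) : MeasurableSet {α : Fin r → ℝ | ∀ j, 0 < α j} := by
  have e : {α : Fin r → ℝ | ∀ j, 0 < α j} = ⋂ j, {α : Fin r → ℝ | 0 < α j} := by
    ext α
    simp only [Set.mem_iInter]
    exact Iff.rfl
  rw [e]
  exact MeasurableSet.iInter fun j => pos_meas j

theorem weights {r : ℕ} (k : Fin r → ℝ) (hk : ∀ j, 0 < k j) (f : Fin r → ℕ → ℕ)
    (hf : ∀ j, StrictMono (f j)) (C : ℕ)
    (hfC : ∀ j, ∀ᶠ n : ℕ in atTop, (f j n : ℝ) ≤ n * Real.log n ^ C) (a : ℕ → ℂ) (M : ℝ)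
    (ha : ∀ n, ‖a n‖ ≤ M) : ∀ᵐ α : Fin r → ℝ, (∀ j, 0 < α j) → ∀ K : ℕ, ∀ᶠ N : ℕ in atTop,
        ‖(∑ n ∈ Icc 1 N with ∀ j, (⌊α j * (f j n : ℝ) ^ (k j)⌋₊).Prime, a n) -
          ∑ n ∈ Icc 1 N, a n * ((∏ j, 1 / Real.log (α j * (f j n : ℝ) ^ (k j)) : ℝ) : ℂ)‖ ≤
            N / Real.log N ^ K := by
  filter_upwards [prime_several C r k hk f hf hfC a M ha] with α hα hpos K
  have h0 : ∀ᶠ n : ℕ in atTop, ∀ j, 2 ≤ α j * (f j n : ℝ) ^ (k j) := by
    rw [eventually_all]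
    intro j
    have h1 : Tendsto (fun n : ℕ => α j * (f j n : ℝ) ^ (k j)) atTop atTop :=
      ((tendsto_rpow_atTop (hk j)).comp (tendsto_natCast_atTop_atTop.comp
        (hf j).tendsto_atTop)).const_mul_atTop (hpos j)
    exact h1.eventually_ge_atTop 2
  obtain ⟨n0, hn0⟩ := h0.exists_forall_of_atTop
  obtain ⟨w, hw⟩ : ∃ w : ℕ → ℂ, ∀ n, w n = a n * (((∏ j, gd (α j * (f j n : ℝ) ^ (k j)) : ℝ) : ℂ) -
    ((∏ j, 1 / Real.log (α j * (f j n : ℝ) ^ (k j)) : ℝ) : ℂ)) := ⟨_, fun _ => rfl⟩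
  have hw0 : ∀ n, n0 ≤ n → w n = 0 := by
    intro n hn
    rw [hw]
    have e : ∏ j, gd (α j * (f j n : ℝ) ^ (k j)) = ∏ j, 1 / Real.log (α j * (f j n : ℝ) ^ (k j)) := by
      refine Finset.prod_congr rfl fun j _ => ?_
      unfold gd
      rw [if_pos (hn0 n hn j)]
    rw [e, sub_self, mul_zero]
  have hwsum : ∀ N, ‖∑ n ∈ Icc 1 N, w n‖ ≤ ∑ n ∈ range n0, ‖w n‖ := by
    intro N
    have e : ∑ n ∈ Icc 1 N, w n = ∑ n ∈ (Icc 1 N).filter (· < n0), w n := by
      rw [Finset.sum_filter]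
      refine Finset.sum_congr rfl fun n _ => ?_
      split_ifs with h
      · rfl
      · exact hw0 n (by omega)
    rw [e]
    refine (norm_sum_le _ _).trans ?_
    refine Finset.sum_le_sum_of_subset_of_nonneg (fun n hn => ?_) fun _ _ _ => norm_nonneg _
    rw [Finset.mem_filter] at hn
    exact Finset.mem_range.2 hn.2
  have hlarge : ∀ᶠ N : ℕ in atTop, (∑ n ∈ range n0, ‖w n‖) * Real.log N ^ (K + 1) ≤ N := ev_logpow _ _
  filter_upwards [hα hpos (K + 1), hlarge, ev_logge 2] with N h1 h2 h3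
  have hL0 : 0 < Real.log (N : ℝ) := by linarith
  have e : (∑ n ∈ Icc 1 N with ∀ j, (⌊α j * (f j n : ℝ) ^ (k j)⌋₊).Prime, a n) -
      ∑ n ∈ Icc 1 N, a n * ((∏ j, 1 / Real.log (α j * (f j n : ℝ) ^ (k j)) : ℝ) : ℂ) =
      ∑ n ∈ Icc 1 N, a n * Dt k f α n + ∑ n ∈ Icc 1 N, w n := by
    rw [Finset.sum_filter, ← Finset.sum_sub_distrib, ← Finset.sum_add_distrib]
    refine Finset.sum_congr rfl fun n _ => ?_
    rw [hw]
    unfold Dt
    rw [prod_ip]
    push_cast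
    split_ifs <;> ring
  rw [e]
  refine (norm_add_le _ _).trans ((add_le_add h1 (hwsum N)).trans ?_)
  have h4 : (∑ n ∈ range n0, ‖w n‖) ≤ N / Real.log N ^ (K + 1) := by
    rw [le_div_iff₀ (by positivity)]
    exact h2
  have c1 : (N : ℝ) / Real.log N ^ K = Real.log N * (N / Real.log N ^ (K + 1)) := by
    rw [pow_succ]
    field_simp
  rw [c1]
  have c2 : 0 ≤ (N : ℝ) / Real.log N ^ (K + 1) := by positivity
  nlinarith

theorem fcong (P : ℕ → Prop) (h1 h2 : DecidablePred P) (G : ℕ → ℝ → ℝ) (S : ℝ) :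
    Tendsto (fun N : ℕ => G N ((@Finset.filter ℕ P h1 (Icc 1 N)).card : ℝ)) atTop (𝓝 S) ↔
      Tendsto (fun N : ℕ => G N ((@Finset.filter ℕ P h2 (Icc 1 N)).card : ℝ)) atTop (𝓝 S) := by
  have e : h1 = h2 := Subsingleton.elim _ _
  subst e
  exact Iff.rfl

open Classical in
theorem transfer {r : ℕ} (k : Fin r → ℝ) (hk : ∀ j, 0 < k j) (f : Fin r → ℕ → ℕ)
    (hf : ∀ j, StrictMono (f j)) (C : ℕ)
    (hfC : ∀ j, ∀ᶠ n : ℕ in atTop, (f j n : ℝ) ≤ n * Real.log n ^ C) (A : Set ℕ) :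
    ∀ᵐ α : Fin r → ℝ, (∀ j, 0 < α j) → ∀ (s : ℕ) (S : ℝ),
      (Tendsto (fun N : ℕ => Real.log N ^ s / N * (((Icc 1 N).filter (· ∈ A)).card : ℝ)) atTop (𝓝 S) ↔
       Tendsto (fun N : ℕ => Real.log N ^ (s + r) / N *
        (((Icc 1 N).filter (fun n => n ∈ A ∧ ∀ j, (⌊α j * (f j n : ℝ) ^ (k j)⌋₊).Prime)).card : ℝ)) atTop
          (𝓝 (S / ∏ j, k j))) := by
  have hκ : 0 < ∏ j, k j := Finset.prod_pos fun j _ => hk j
  filter_upwards [mixed k hk f hf C hfC A] with α hα hpos s S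
  obtain ⟨κ, hκe⟩ : ∃ κ, κ = ∏ j, k j := ⟨_, rfl⟩
  have hκ' : κ ≠ 0 := by
    rw [hκe]
    exact hκ.ne'
  have h1 := lim_iff (fun N : ℕ => Real.log N ^ s / N * (((Icc 1 N).filter (· ∈ A)).card : ℝ))
    (fun N : ℕ => κ * (Real.log N ^ (s + r) / N *
        (((Icc 1 N).filter (fun n => n ∈ A ∧ ∀ j, (⌊α j * (f j n : ℝ) ^ (k j)⌋₊).Prime)).card : ℝ)))
    (fun N => by
      have := Real.log_natCast_nonneg N
      positivity) (fun ε hε => by
      filter_upwards [hα hpos (s + 1) ε hε, ev_logge (1 / ε), ev_logge 1, eventually_ge_atTop 1] with N h2 h3 h4 h5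
      rw [← hκe] at h2
      have hN0 : (0 : ℝ) < N := by exact_mod_cast (show 0 < N by omega)
      obtain ⟨L, hL⟩ : ∃ L, L = Real.log (N : ℝ) := ⟨_, rfl⟩
      simp only [← hL] at h2 h3 h4 ⊢
      have hL0 : 0 < L := by linarith
      set c1 := (((Icc 1 N).filter (fun n => n ∈ A ∧ ∀ j, (⌊α j * (f j n : ℝ) ^ (k j)⌋₊).Prime)).card : ℝ)
      set c3 := (((Icc 1 N).filter (· ∈ A)).card : ℝ)
      have e1 : κ * (L ^ (s + r) / N * c1) - L ^ s / N * c3 = L ^ s / N * (κ * L ^ r * c1 - c3) := by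
        rw [pow_add]
        ring
      rw [e1, abs_mul, abs_of_nonneg (by positivity)]
      have e2 : L ^ s / N * |κ * L ^ r * c1 - c3| ≤ L ^ s / N * (ε * c3 + N / L ^ (s + 1)) :=
        mul_le_mul_of_nonneg_left h2 (by positivity)
      have e3 : L ^ s / N * (ε * c3 + N / L ^ (s + 1)) = ε * (L ^ s / N * c3) + 1 / L := by
        rw [pow_succ]
        field_simp
      have e4 : 1 / L ≤ ε := by
        rw [div_le_iff₀ hL0]
        rw [div_le_iff₀ hε] at h3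
        linarith
      linarith) S
  rw [h1]
  constructor
  · intro h
    have h2 := h.div_const κ
    rw [← hκe]
    refine h2.congr fun N => ?_
    rw [mul_div_cancel_left₀ _ hκ']
  · intro h
    have h2 := h.const_mul κ
    rw [← hκe] at h2
    have e : κ * (S / κ) = S := mul_div_cancel₀ S hκ'
    rw [e] at h2
    exact h2

theorem result (r : ℕ) (k : Fin r → ℝ) (hk : ∀ j, 0 < k j) (f : Fin r → ℕ → ℕ)
    (hf : ∀ j, StrictMono (f j)) (C : ℕ)
    (hfC : ∀ j, ∀ᶠ n : ℕ in atTop, (f j n : ℝ) ≤ n * Real.log n ^ C) :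
    (∀ (a : ℕ → ℂ) (M : ℝ), (∀ n, ‖a n‖ ≤ M) →
      ∀ᵐ α ∂((volume : Measure (Fin r → ℝ)).restrict {α | ∀ j, 0 < α j}), ∀ K : ℕ, ∀ᶠ N : ℕ in atTop,
        ‖(∑ n ∈ Icc 1 N with ∀ j, (⌊α j * (f j n : ℝ) ^ (k j)⌋₊).Prime, a n) -
          ∑ n ∈ Icc 1 N, a n * ((∏ j, 1 / Real.log (α j * (f j n : ℝ) ^ (k j)) : ℝ) : ℂ)‖ ≤
            N / Real.log N ^ K) ∧
    (∀ᵐ α ∂((volume : Measure (Fin r → ℝ)).restrict {α | ∀ j, 0 < α j}), ∀ (s : ℕ) (h : Fin s → ℤ) (S : ℝ),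
      (Tendsto (fun N : ℕ => Real.log N ^ s / N *
        (((Icc 1 N).filter fun n : ℕ => ∀ i, ((n : ℤ) + h i).toNat.Prime).card : ℝ)) atTop (𝓝 S) ↔
       Tendsto (fun N : ℕ => Real.log N ^ (s + r) / N *
        (((Icc 1 N).filter fun n : ℕ => (∀ i, ((n : ℤ) + h i).toNat.Prime) ∧
          ∀ j, (⌊α j * (f j n : ℝ) ^ (k j)⌋₊).Prime).card : ℝ)) atTop (𝓝 (S / ∏ j, k j)))) ∧
    (∀ᵐ α ∂((volume : Measure (Fin r → ℝ)).restrict {α | ∀ j, 0 < α j}),
      Tendsto (fun N : ℕ => Real.log N ^ (1 + r) / N *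
        (((Icc 1 N).filter fun n : ℕ => n.Prime ∧ ∀ j, (⌊α j * (f j n : ℝ) ^ (k j)⌋₊).Prime).card : ℝ)) atTop
          (𝓝 (1 / ∏ j, k j))) := by
  refine ⟨fun a M ha => ?_, ?_, ?_⟩
  · rw [ae_restrict_iff' (pos_meas' r)]
    exact weights k hk f hf C hfC a M ha
  · rw [ae_restrict_iff' (pos_meas' r)]
    have h1 : ∀ᵐ α : Fin r → ℝ, ∀ s : ℕ, ∀ h : Fin s → ℤ, (∀ j, 0 < α j) → ∀ S : ℝ,
        (Tendsto (fun N : ℕ => Real.log N ^ s / N *
        (((Icc 1 N).filter fun n : ℕ => ∀ i, ((n : ℤ) + h i).toNat.Prime).card : ℝ)) atTop (𝓝 S) ↔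
       Tendsto (fun N : ℕ => Real.log N ^ (s + r) / N *
        (((Icc 1 N).filter fun n : ℕ => (∀ i, ((n : ℤ) + h i).toNat.Prime) ∧
          ∀ j, (⌊α j * (f j n : ℝ) ^ (k j)⌋₊).Prime).card : ℝ)) atTop (𝓝 (S / ∏ j, k j))) := by
      rw [ae_all_iff]
      intro s
      rw [ae_all_iff]
      intro h
      filter_upwards [transfer k hk f hf C hfC {n : ℕ | ∀ i, ((n : ℤ) + h i).toNat.Prime}] with α hα hpos S
      have h2 := hα hpos s S
      exact (fcong (fun n : ℕ => ∀ i, ((n : ℤ) + h i).toNat.Prime) _ _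
        (fun N x => Real.log N ^ s / N * x) S).trans (h2.trans
        (fcong (fun n : ℕ => (∀ i, ((n : ℤ) + h i).toNat.Prime) ∧ ∀ j, (⌊α j * (f j n : ℝ) ^ (k j)⌋₊).Prime) _ _
          (fun N x => Real.log N ^ (s + r) / N * x) (S / ∏ j, k j)))
    filter_upwards [h1] with α hα hpos s h S
    exact hα s h hpos S
  · rw [ae_restrict_iff' (pos_meas' r)]
    filter_upwards [transfer k hk f hf C hfC {n : ℕ | n.Prime}] with α hα hpos
    have h0 := (fcong (fun n : ℕ => n.Prime) _ (fun n => Classical.propDecidable _)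
      (fun N x => Real.log N ^ 1 / N * x) 1).1 pnt
    have h2 := (hα hpos 1 1).1 h0
    exact (fcong (fun n : ℕ => n.Prime ∧ ∀ j, (⌊α j * (f j n : ℝ) ^ (k j)⌋₊).Prime) _ _
      (fun N x => Real.log N ^ (1 + r) / N * x) (1 / ∏ j, k j)).1 h2

end Pool.Agent.Results.MP_e87c7d_nt.MetricTuples
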