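import Pool.Agent.D0H37.KS.Main

/-!
# A large sieve inequality for `k` shifts: how many primes can a sum of squares detect?

Author: helper37.  The method of Goldston-Pintz-Yıldırım and Maynard-Tao finds several primes among `n + h_1, ..., n + h_k`
with the help of a weight `w(n) ≥ 0`, a square (or a sum of squares) of a function of level `R`, that is of a sum of functions
with periods `d ≤ R`: it needs weights for which the average of `w` over the `n` for which `n + h_i` has no small prime
factor, added over `i`, is large in comparison with the average of `w` over all `n`.  For the weights of Maynard, which come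
from smooth functions `F(log d_1 / log R, ..., log d_k / log R)`, the best possible ratio is `M_k log R`, where
`log k - 2 log log k - 2 ≤ M_k ≤ (k/(k-1)) log k` (Maynard, Polymath).

Here we show that the upper bound holds for ALL weights which are sums of squares of functions of level `R`, of whatever
shape: not only multilinear functions of the divisors of the `n + h_i`, smooth, multiplicative or nonnegative coefficients,
but arbitrary sums of arbitrary functions with periods `≤ R`.  So `(1 + o(1)) log k` is the exact order of what squares can do.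
For `k = 1` the corresponding statement (with `1` instead of `(k/(k-1)) log k`) is the large sieve inequality.  The trivial
bound, adding up the large sieve for each shift, is `k log R`.

Proof.  On the integers modulo `R!` let `e_p` be the average over the `p`-part, and for the shift `h` let
`z_p = p 1[p ∣ n + h] - 1`.  Write `g = m_p + z_p h_p + U_p` (`m_p = e_p g`, `h_p = e_p(z_p g)/(p-1)`).  For one shift we show,
by two inductions over the primes, `E_h g² ≤ B (a E g² - ∑_p u_p E (U_p g)² + ∑_p (k log p - u_p)(p-1) E (h_p g)²)`,
`u_p ≈ log p`, if for all sets `m` of primes with product `M ≤ R`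
`∏_{p ∈ m} p/(p-1) ∑_{d ≤ R/M, (d,M)=1} μ²(d)/φ(d) / (a - ∑_{p ∈ m} u_p + ∑_{p ∣ d} (k log p - u_p)) ≤ B`.
In the sum over the shifts the last two terms cancel, because the classes `n ≡ -h_i mod p` are disjoint for most `p`.  With
`a = (1 + η) log R` partial summation gives `B → (log k)/(k-1)`.
-/

set_option autoImplicit false

open Finset

namespace Pool.Agent.Results.MP_e87c7d_nt.OptimalSumsOfSquares

/-- `g` is a function of level `R`: a sum of arbitrary real functions `c_d(n mod d)` with periods `1 ≤ d ≤ R` -/
def Level (R : ℕ) (g : ℤ → ℝ) : Prop := ∃ c : ℕ → ℤ → ℝ, ∀ n, g n = ∑ d ∈ Icc 1 R, c d (n % d)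

/-- `w` is a finite sum of squares of functions of level `R` -/
def SumSq (R : ℕ) (w : ℤ → ℝ) : Prop :=
  ∃ (J : ℕ) (g : Fin J → ℤ → ℝ), (∀ j, Level R (g j)) ∧ ∀ n, w n = ∑ j, g j n ^ 2

/-- `n` has no prime factor `p ≤ R` -/
def Free (R : ℕ) (n : ℤ) : Prop := ∀ p : ℕ, p.Prime → p ≤ R → ¬ (p : ℤ) ∣ n

/-- the mean value of `F` over the period `R!` -/
noncomputable def mean (R : ℕ) (F : ℤ → ℝ) : ℝ :=
  (∑ n ∈ range R.factorial, F n) / (R.factorial : ℝ)

open Classical in
/-- the mean value of `F` over the `n` of the period `R!` for which `n + h` has no prime factor `p ≤ R` -/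
noncomputable def meanFree (R : ℕ) (h : ℤ) (F : ℤ → ℝ) : ℝ :=
  (∑ n ∈ (range R.factorial).filter (fun n : ℕ => Free R (n + h)), F n) /
    (((range R.factorial).filter (fun n : ℕ => Free R (n + h))).card : ℝ)

/-- For all `k ≥ 2` and `ε > 0` there are `δ > 0` and `R₀` such that for all `R ≥ R₀`, all distinct integers
`h_1, ..., h_k` with `|h_i| ≤ R^δ`, and all weights `w` which are sums of squares of functions of level `R`:

(1) the sum over `i` of the mean values of `w` over the `n` for which `n + h_i` has no prime factor `p ≤ R` is at most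
`((k/(k-1)) log k + ε) log R` times the mean value of `w`;

(2) for all sufficiently large `x` the average with the weight `w(n)`, over the `n ≤ x`, of the number of primes among
`n + h_1, ..., n + h_k` is at most `((k/(k-1)) log k + ε) (log R)/(log x)`. -/
theorem result (k : ℕ) (hk : 2 ≤ k) (ε : ℝ) (hε : 0 < ε) : ∃ δ : ℝ, 0 < δ ∧ ∃ R₀ : ℕ, 2 ≤ R₀ ∧
    ∀ R : ℕ, R₀ ≤ R → ∀ h : Fin k → ℤ, Function.Injective h → (∀ i, |(h i : ℝ)| ≤ (R : ℝ) ^ δ) →
      ∀ w : ℤ → ℝ, SumSq R w →
        (∑ i, meanFree R (h i) w ≤
          ((k : ℝ) / ((k : ℝ) - 1) * Real.log k + ε) * Real.log R * mean R w) ∧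
        ∃ x₀ : ℕ, ∀ x : ℕ, x₀ ≤ x →
          ∑ n ∈ Icc 1 x, w n * ((univ.filter fun i => ((n : ℤ) + h i).toNat.Prime).card : ℝ) ≤
            ((k : ℝ) / ((k : ℝ) - 1) * Real.log k + ε) * (Real.log R / Real.log x) *
              ∑ n ∈ Icc 1 x, w n :=
  Pool.Agent.D0H37.KS.prime_form k hk ε hε

end Pool.Agent.Results.MP_e87c7d_nt.OptimalSumsOfSquares
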