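import Pool.Agent.D0H48.Hl.Sum

/-!
# The Hardy-Littlewood formula for the shifts given by all the rational approximations of almost every point

Let `f_0, …, f_d` be integer polynomials of the same degree `D ≥ 1` with positive leading coefficients. For almost every
`α ∈ (0, ∞)^d` the asymptotic formula of Hardy and Littlewood for the primes `p ≤ N` such that
`p + f_0(q), p + f_1(a_1), …, p + f_d(a_d)` are primes holds for ALL rational points `a / q` with large `q` which are
approximations of `α` with `|q α_i - a_i| ≤ (log ^ B q / q) ^ (1 / d)`, and for all `N` between `q ^ D / B` and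
`q ^ D log ^ B q`. There is one exceptional set for all the polynomials, and it is a null set even for the generalized
Hausdorff measures with the gauges `r ^ d log ^ K (1 / r)`.

For `d = 1` all the convergents `a / q` of `α` are among these approximations, and also the fractions
`(κ a) / (κ q)`, `κ ≤ log q`.

Proof. By a theorem of the starting files the formula fails, for every given `N`, for a proportion of at most
`log ^ (-U) N` of the vectors `(q, a)` in a box, with `U` arbitrary. Finitely many multiples of every power of `2`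
suffice as the values of `N`, since the number of prime tuples is a monotone function of `N`. So the sum of the
`r ^ d log ^ K (1 / r)` over the cubes, with radius `r`, of the `α` which belong to exceptional vectors `(q, a)` converges.
-/

set_option autoImplicit false

open Filter Topology Finset MeasureTheory Polynomial
open scoped ENNReal

namespace Pool.Agent.Results.MP_e87c7d_nt.RationalApproximations

/-- The number of the primes `p ≤ N` for which all `p + v i` are primes. -/
def count {s : ℕ} (v : Fin s → ℤ) (N : ℕ) : ℕ :=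
  ((Icc 1 N).filter (fun p : ℕ => p.Prime ∧ ∀ i, ((p : ℤ) + v i).toNat.Prime)).card

/-- The number of the `0 ≤ r < p` for which `p` divides one of the numbers `r, r + v 1, …, r + v s`. -/
def classes {s : ℕ} (v : Fin s → ℤ) (p : ℕ) : ℕ :=
  ((range p).filter (fun r => p ∣ r ∨ ∃ i, (p : ℤ) ∣ (r : ℤ) + v i)).card

/-- The partial product, over the primes `p ≤ z`, of the singular series of the tuple `0, v 1, …, v s`. -/
noncomputable def partialProduct {s : ℕ} (v : Fin s → ℤ) (z : ℕ) : ℝ :=
  ∏ p ∈ (Icc 1 z).filter Nat.Prime, (1 - (classes v p : ℝ) / p) / (1 - 1 / (p : ℝ)) ^ (s + 1)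

/-- The formula of Hardy and Littlewood for the tuple `0, v 1, …, v s` at `N`: the singular series converges, and if the
tuple is admissible then its sum `S` is positive and `S N / log ^ (s + 1) N` is the number of the primes `p ≤ N` for which
all `p + v i` are primes, with a relative error of at most `ε`. -/
def HardyLittlewood {s : ℕ} (ε : ℝ) (N : ℕ) (v : Fin s → ℤ) : Prop :=
  ∃ S : ℝ, Tendsto (partialProduct v) atTop (𝓝 S) ∧ ((∀ p : ℕ, p.Prime → classes v p < p) →
    0 < S ∧ |(count v N : ℝ) - S * (N / Real.log N ^ (s + 1))| ≤ ε * (S * (N / Real.log N ^ (s + 1))))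

/-- The formula holds for the values of all families of `d + 1` integer polynomials of the same degree, with positive
leading coefficients, at all the good approximations `a / q` of `α` with large `q`. -/
def AllApproximations {d : ℕ} (α : Fin d → ℝ) : Prop :=
  ∀ (f : Fin (d + 1) → ℤ[X]) (D : ℕ), 1 ≤ D → (∀ i, (f i).natDegree = D) → (∀ i, 0 < (f i).leadingCoeff) →
    ∀ (B : ℕ) (ε : ℝ), 0 < ε → ∃ Q : ℕ, ∀ (q : ℕ) (a : Fin d → ℕ), Q ≤ q →
      (∀ i, (q : ℝ) * |q * α i - a i| ^ d ≤ Real.log q ^ B) →
      ∀ N : ℕ, q ^ D ≤ B * N → (N : ℝ) ≤ (q : ℝ) ^ D * Real.log q ^ B →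
        HardyLittlewood ε N (fun i => (f i).eval (((Fin.cons q a : Fin (d + 1) → ℕ) i : ℕ) : ℤ))

lemma of_HLd {s : ℕ} {ε : ℝ} {N : ℕ} {v : Fin s → ℤ} (h : Pool.Agent.D0H48.Hl.HLd ε N v) : HardyLittlewood ε N v := by
  obtain ⟨S, hS, h⟩ := h
  refine ⟨S, hS, fun hadm => h fun p hp => ?_⟩
  by_contra hcon
  push Not at hcon
  have h1 : (range p).filter (fun r => p ∣ r ∨ ∃ i, (p : ℤ) ∣ (r : ℤ) + v i) = range p := by
    rw [filter_eq_self]
    intro r _
    by_cases h2 : p ∣ r
    · exact Or.inl h2
    · obtain ⟨i, hi⟩ := hcon (r : ℤ) (by exact_mod_cast h2)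
      exact Or.inr ⟨i, hi⟩
  have h2 := hadm p hp
  unfold classes at h2
  rw [h1, card_range] at h2
  exact lt_irrefl _ h2

lemma bad_sub (d : ℕ) : {α : Fin d → ℝ | (∀ i, 0 < α i) ∧ ¬ AllApproximations α} ⊆ Pool.Agent.D0H48.Hl.Exc d := by
  rintro α ⟨hα, hbad⟩
  refine ⟨hα, fun hgood => hbad ?_⟩
  intro f D hD1 hD hl B ε hε
  obtain ⟨Q, hQ⟩ := hgood f D ⟨hD1, hD, hl⟩ B ε hε
  exact ⟨Q, fun q a hq hap N h1 h2 => of_HLd (hQ q a hq hap N h1 h2)⟩

theorem result (d : ℕ) (hd : 1 ≤ d) :
    (∀ᵐ α : Fin d → ℝ, (∀ i, 0 < α i) → AllApproximations α) ∧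
    ∀ (K : ℕ) (m : ℝ≥0∞ → ℝ≥0∞), Monotone m → ∀ C : ℝ,
      (∀ r : ℝ, 0 < r → r ≤ 1 / 2 → m (ENNReal.ofReal r) ≤ ENNReal.ofReal (C * (r ^ d * Real.log (1 / r) ^ K))) →
      Measure.mkMetric m {α : Fin d → ℝ | (∀ i, 0 < α i) ∧ ¬ AllApproximations α} = 0 := by
  constructor
  · rw [ae_iff]
    refine measure_mono_null ?_ (Pool.Agent.D0H48.Hl.Exc_volume hd)
    refine Set.Subset.trans ?_ (bad_sub d)
    intro α hα
    have h1 : ¬ ((∀ i, 0 < α i) → AllApproximations α) := hα
    exact Classical.not_imp.mp h1
  · intro K m hm C hC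
    exact measure_mono_null (bad_sub d) (Pool.Agent.D0H48.Hl.Exc_null hd K m hm C hC)

end Pool.Agent.Results.MP_e87c7d_nt.RationalApproximations
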