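import Pool.Agent.D0H16.SF.Main2

/-!
# The formula of Hardy and Littlewood for shifts built from smooth numbers

The asymptotic formula for the numbers of the `n` in windows for which all `|α i n + c i + κ i v i|` are prime, for
almost all vectors `(v 1, ..., v k)` of integers composed of few primes, simultaneously for all small slopes `α i`,
all multipliers `κ i` and all `c` in a given set of vectors.

Method: the characteristic function of a random integer composed of the primes of `P` is small outside of a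
polylogarithmic number of frequencies (`Pool.Agent.N469`, helper469), so that the von Mangoldt function can be
replaced by a sieve model in one factor at a time (`Pool.Agent.Y885`, helper885; `Pool.Agent.TH935`).
-/

set_option autoImplicit false

namespace Pool.Agent.Results.MP_e87c7d_nt.SmoothShifts

open Finset Filter Topology

/-- `ν(p)`: the number of the residue classes of `n` modulo `p` for which `p` divides `∏ (α i n + a i)`. -/
def nu {m : ℕ} (α a : Fin m → ℤ) (p : ℕ) : ℕ :=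
  ((range p).filter (fun n : ℕ => (p : ℤ) ∣ ∏ i, (α i * (n : ℤ) + a i))).card

/-- The partial product of the singular series over the primes `p ≤ z`. -/
noncomputable def sing {m : ℕ} (α a : Fin m → ℤ) (z : ℕ) : ℝ :=
  ∏ p ∈ (Icc 1 z).filter Nat.Prime, (1 - (nu α a p : ℝ) / p) / (1 - 1 / (p : ℝ)) ^ m

/-- The number of `n` with `y₁ < n ≤ y₂` such that `|α i n + a i|` is prime for every `i`. -/
def count {m : ℕ} (α a : Fin m → ℤ) (y₁ y₂ : ℕ) : ℕ :=
  ((Ioc y₁ y₂).filter (fun n : ℕ => ∀ i, (α i * (n : ℤ) + a i).natAbs.Prime)).card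

/-- No two of the forms `α i n + a i` are equal up to sign, and their product has no fixed prime divisor. -/
def Admissible {m : ℕ} (α a : Fin m → ℤ) : Prop :=
  (∀ i j, i ≠ j → ¬ (α i = α j ∧ a i = a j) ∧ ¬ (α i = -α j ∧ a i = -a j)) ∧
  (∀ p : ℕ, p.Prime → ∃ n : ℤ, ¬ (p : ℤ) ∣ ∏ i, (α i * n + a i))

/-- The formula of Hardy and Littlewood in all windows: if the forms `α i n + a i` are admissible, then the
singular series converges to some `c > 0`, and for all `y₁`, `y₂ ≤ B N` with `y₂ - y₁ ≥ N / log ^ A N` the number of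
the `n` with `y₁ < n ≤ y₂` for which all `|α i n + a i|` are prime is `c (y₂ - y₁) / log ^ m N`, up to a relative
error of at most `ε`. -/
def Formula (ε : ℝ) (A B N : ℕ) {m : ℕ} (α a : Fin m → ℤ) : Prop :=
  Admissible α a → ∃ c : ℝ, 0 < c ∧ Tendsto (sing α a) atTop (𝓝 c) ∧
    ∀ y₁ y₂ : ℕ, y₂ ≤ B * N → (N : ℝ) / Real.log N ^ A ≤ (y₂ : ℝ) - y₁ →
      |(count α a y₁ y₂ : ℝ) - c * ((y₂ : ℝ) - y₁) / Real.log N ^ m| ≤
        ε * (c * ((y₂ : ℝ) - y₁) / Real.log N ^ m)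

/-- The conclusion for the vector `v`: for all slopes `0 < |α i| ≤ log ^ A N`, all multipliers `κ i ≠ 0` with
`|κ i| x i ≤ B N` and all `c ∈ 𝒞`, and with `a i = c i + κ i v i`: the formula of Hardy and Littlewood for the
`k` forms `α i n + a i` and for the `k + 1` forms `n, α i n + a i`. -/
def Good (ε : ℝ) (A B N : ℕ) {k : ℕ} (𝒞 : Finset (Fin k → ℤ)) (x v : Fin k → ℕ) : Prop :=
  ∀ α κ c : Fin k → ℤ, (∀ i, α i ≠ 0 ∧ |(α i : ℝ)| ≤ Real.log N ^ A) → (∀ i, κ i ≠ 0 ∧ |κ i| * x i ≤ B * N) → c ∈ 𝒞 →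
    Formula ε A B N α (fun i => c i + κ i * (v i : ℤ)) ∧
    Formula ε A B N (Fin.cons 1 α : Fin (k + 1) → ℤ) (Fin.cons 0 (fun i => c i + κ i * (v i : ℤ)) : Fin (k + 1) → ℤ)

/-- Either `S` is the set of the integers `v ≤ x` composed of primes from a set `P` of primes `p ≤ y` with
`#P ≥ y ^ (1 / 2 + δ) log N`, or `y ≥ log ^ (2 + δ) N` and `S` is the set of the `y`-smooth integers `v ≤ x`; in
both cases `1 ≤ y ≤ log ^ A N`. -/
def Family (δ : ℝ) (A N x : ℕ) (S : Finset ℕ) : Prop :=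
  ∃ y : ℕ, 1 ≤ y ∧ (y : ℝ) ≤ Real.log N ^ A ∧
    ((∃ P : Finset ℕ, (∀ p ∈ P, p.Prime ∧ p ≤ y) ∧ (y : ℝ) ^ (1 / 2 + δ) * Real.log N ≤ P.card ∧
        S = (Icc 1 x).filter (fun v => v.primeFactors ⊆ P)) ∨
      (Real.log N ^ (2 + δ) ≤ y ∧ S = (Icc 1 x).filter (fun v => ∀ p ∈ v.primeFactors, p ≤ y)))

open Pool.Agent.TH935.TF
open Pool.Agent.H373R2.T7 (pz mem_pz Vz)
open Pool.Agent.N469.SM (SS)
open Pool.Agent.N469.TL (Cond)
open Pool.Agent.D0H16.SF (All)

lemma dvd_prod {k : ℕ} (α β : Fin k → ℤ) (p : ℕ) (hp : p.Prime) (n : ℤ) :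
    (p : ℤ) ∣ ∏ i, (α i * n + β i) ↔ ∃ i, (p : ℤ) ∣ α i * n + β i := by
  have h := (Nat.prime_iff_prime_int.1 hp).dvd_finsetProd_iff (S := univ) (fun i => α i * n + β i)
  simpa using h

lemma nu_eq {k : ℕ} (α β : Fin k → ℤ) (p : ℕ) (hp : p.Prime) : nu α β p = om α β p := by
  unfold nu om
  congr 1
  apply filter_congr
  intro n _
  exact dvd_prod α β p hp n

lemma sing_eq {k : ℕ} (α β : Fin k → ℤ) : sing α β = fun z => Gz (om α β) k z := by
  funext z
  unfold sing Gz Fq pz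
  apply prod_congr rfl
  intro p hp
  rw [nu_eq α β p (mem_filter.1 hp).2]

lemma adm_of {k : ℕ} (α β : Fin k → ℤ) (h : Admissible α β) : Adm α β := by
  intro p hp
  obtain ⟨n, hn⟩ := h.2 p hp
  refine ⟨n, fun i hi => hn ?_⟩
  exact (dvd_prod α β p hp n).2 ⟨i, hi⟩

lemma formula_of (ε : ℝ) (A B N : ℕ) {m : ℕ} (α a : Fin m → ℤ)
    (h : Adm α a → Dist α a → ∃ S : ℝ, 0 < S ∧ Filter.Tendsto (fun z => Gz (om α a) m z) Filter.atTop (nhds S) ∧
      ∀ y₁ y₂ : ℕ, y₁ ≤ y₂ → y₂ ≤ 2 * B * N → (N : ℝ) / Real.log N ^ A ≤ (y₂ : ℝ) - y₁ →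
        |(cn α a y₁ y₂ : ℝ) - S * ((y₂ : ℝ) - y₁) / Real.log N ^ m| ≤ ε * (S * ((y₂ : ℝ) - y₁) / Real.log N ^ m)) :
    Formula ε A B N α a := by
  intro hadm
  obtain ⟨S, hS0, hSt, hS⟩ := h (adm_of α a hadm) hadm.1
  refine ⟨S, hS0, by rw [sing_eq]; exact hSt, fun y₁ y₂ hy2 hΔ => ?_⟩
  have hl : 0 ≤ Real.log (N : ℝ) := Real.log_natCast_nonneg N
  have h12 : y₁ ≤ y₂ := by
    have h1 : (0 : ℝ) ≤ (y₂ : ℝ) - y₁ := le_trans (by positivity) hΔ
    have h2 : (y₁ : ℝ) ≤ y₂ := by linarith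
    exact_mod_cast h2
  exact hS y₁ y₂ h12 (hy2.trans (by rw [mul_assoc]; exact Nat.le_mul_of_pos_left _ (by norm_num))) hΔ

/-- from the library form of the conclusion -/
lemma good_of (ε : ℝ) (A B N : ℕ) {k : ℕ} (𝒞 : Finset (Fin k → ℤ)) (x v : Fin k → ℕ)
    (h : ∀ κ c : Fin k → ℤ, (∀ i, κ i ≠ 0 ∧ |κ i| * x i ≤ B * N) → c ∈ 𝒞 →
      All ε A (2 * B) N (fun i => c i + κ i * (v i : ℤ))) :
    Good ε A B N 𝒞 x v := by
  intro α κ c hα hκ hc
  obtain ⟨h1, h2⟩ := h κ c hκ hc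
  have hα0 : ∀ i, α i ≠ 0 := fun i => (hα i).1
  have hαL : ∀ i, ((α i).natAbs : ℝ) ≤ Real.log N ^ A := fun i => by rw [Nat.cast_natAbs, Int.cast_abs]; exact (hα i).2
  exact ⟨formula_of ε A B N α _ (h1 α hα0 hαL),
    formula_of ε A B N (consA α) (consB fun i => c i + κ i * (v i : ℤ)) (h2 α hα0 hαL)⟩

open Classical in
/-- Let `k ≥ 1`, `A`, `B`, `U` and `δ, ε > 0` be fixed, and let `N` be large. Let `𝒞` be an arbitrary set of at most
`log ^ A N` vectors `c` of integers with `|c i| ≤ B N`. For `i = 1, ..., k` let `N / log ^ A N ≤ x i ≤ N`, and let `S i`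
be the set of the integers `v ≤ x i` composed of primes from `P i`, where `P i` is an arbitrary set of at least
`y i ^ (1 / 2 + δ) log N` primes `p ≤ y i`, `y i ≤ log ^ A N`, or the set of the `y i`-smooth integers `v ≤ x i`, where
`log ^ (2 + δ) N ≤ y i ≤ log ^ A N`. Then for all vectors `(v 1, ..., v k)` with `v i ∈ S i`, with the exception of a
proportion of at most `1 / log ^ U N`, the following holds simultaneously for all slopes `0 < |α i| ≤ log ^ A N`, all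
multipliers `κ i ≠ 0` with `|κ i| x i ≤ B N` and all `c ∈ 𝒞`, with `a i = c i + κ i v i`: the formula of Hardy and
Littlewood, in all windows of at least `N / log ^ A N` positive integers `n ≤ B N`, for the tuples
`α 1 n + a 1, ..., α k n + a k` and `n, α 1 n + a 1, ..., α k n + a k`, if they are admissible. -/
theorem result (k A B U : ℕ) (hk : 1 ≤ k) (δ ε : ℝ) (hδ : 0 < δ) (hε : 0 < ε) :
    ∃ N₀ : ℕ, ∀ N : ℕ, N₀ ≤ N →
      ∀ (𝒞 : Finset (Fin k → ℤ)) (x : Fin k → ℕ) (S : Fin k → Finset ℕ),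
      (𝒞.card : ℝ) ≤ Real.log N ^ A → (∀ c ∈ 𝒞, ∀ i, |c i| ≤ B * N) →
      (∀ i, (N : ℝ) / Real.log N ^ A ≤ x i ∧ x i ≤ N ∧ Family δ A N (x i) (S i)) →
      (((Fintype.piFinset S).filter (fun v => ¬ Good ε A B N 𝒞 x v)).card : ℝ) ≤
        ((Fintype.piFinset S).card : ℝ) / Real.log N ^ U := by
  obtain ⟨δ', N1, hδ', h1⟩ := Pool.Agent.N469.SQ.PR_cond δ hδ
  obtain ⟨d, hd⟩ : ∃ d, d = min δ δ' := ⟨_, rfl⟩
  have hd0 : 0 < d := by rw [hd]; exact lt_min hδ hδ'
  have hdδ : d ≤ δ := by rw [hd]; exact min_le_left _ _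
  have hdδ' : d ≤ δ' := by rw [hd]; exact min_le_right _ _
  obtain ⟨N2, h3⟩ := Pool.Agent.D0H16.SF.sm_main k A B U hk d ε hd0 hε
  refine ⟨N1 + N2 + 3, fun N hN 𝒞 x S h𝒞 hc hS => ?_⟩
  have hL0 : 0 < Real.log (N : ℝ) := Real.log_pos (by exact_mod_cast (by omega : 1 < N))
  have hfam : ∀ i, ∃ (P : Finset ℕ) (y : ℕ), Cond d A N P y ∧ S i = SS P (x i) := by
    intro i
    obtain ⟨_, _, y, hy1, hyA, h4⟩ := hS i
    have hy1r : (1 : ℝ) ≤ y := by exact_mod_cast hy1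
    rcases h4 with ⟨P, hP, hcard, hSi⟩ | ⟨hyl, hSi⟩
    · refine ⟨P, y, ⟨hP, hy1, hyA, le_trans ?_ hcard⟩, hSi⟩
      apply mul_le_mul_of_nonneg_right _ hL0.le
      exact Real.rpow_le_rpow_of_exponent_le hy1r (by linarith)
    · refine ⟨Pool.Agent.N469.SQ.PR y, y, ⟨fun p hp => Pool.Agent.N469.SQ.mem_PR.1 hp, hy1, hyA,
        le_trans ?_ (h1 N (by omega) y hyl).2⟩, ?_⟩
      · apply mul_le_mul_of_nonneg_right _ hL0.le
        exact Real.rpow_le_rpow_of_exponent_le hy1r (by linarith)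
      · rw [hSi, Pool.Agent.N469.TL.smooth_eq]
  choose P y hPc hPS using hfam
  have key := h3 N (by omega) x P y (by
      intro i
      obtain ⟨h4, h5, _⟩ := hS i
      refine ⟨h5, ?_⟩
      rwa [div_le_iff₀ (by positivity)] at h4) hPc 𝒞 h𝒞 hc
    (fun v => ¬ Good ε A B N 𝒞 x v) inferInstance (by
      intro v hv
      by_contra hcon
      push Not at hcon
      exact hv (good_of ε A B N 𝒞 x v (fun κ c hκ hc' => hcon κ c hκ hc')))
  have hSS : S = fun i => SS (P i) (x i) := funext hPS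
  rw [hSS, Fintype.card_piFinset]
  push_cast
  exact key

end Pool.Agent.Results.MP_e87c7d_nt.SmoothShifts
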